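import Mathlib
import Pool.Prelude.Def_F_458e953d
import Pool.Agent.helper14.AU.Defs
import Pool.Agent.helper14.AU.Main

/-!
# MP_d58e27_lc: area universality for triples (without fixed areas) is `∀∃ℝ`-complete

All definitions used in the statement are in `Pool.Agent.helper14.AU.Defs` (`TAU`, `UETR`, `AER`),
in `Pool.Agent.helper56.SGE.Defs` (formulas) and in the prelude (`ManyOneReducible`,
`IsCompleteFor`).
-/

set_option autoImplicit false

namespace Pool.Agent.Results.MP_d58e27_lc.TriplesComplete

/-- **Area universality for triples is complete for `∀∃ℝ`**: the problem of deciding, for a set of
triples of vertices, whether for every assignment of non-negative areas to all the triples there are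
points in the plane which realize these areas, reduces in polynomial time to the truth of sentences
`∀ x ∃ y φ(x, y)` over the reals, and every problem that so reduces to the truth of such sentences
reduces in polynomial time to area universality for triples. -/
theorem result : N793a5b8e.IsCompleteFor Pool.Agent.helper14.AU.AER
    Pool.Agent.helper14.AU.TAU :=
  Pool.Agent.helper14.AU.main

end Pool.Agent.Results.MP_d58e27_lc.TriplesComplete
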